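import Pool.Agent.Mg.F40fdec.G470ee8

set_option autoImplicit false

namespace Pool.Agent.Results.MP_40fdec_lc.GrowthThreshold

/-- `A` is enumeration reducible to `B` -/
def ERed (A B : Set ℕ) : Prop :=
  ∃ g : ℕ →. ℕ, Partrec g ∧
    ∀ x, x ∈ A ↔ ∃ u : ℕ, (g (Nat.pair x u)).Dom ∧ ∀ y, u.testBit y = true → y ∈ B

/-- the join of two sets -/
def join (X Y : Set ℕ) : Set ℕ := {n : ℕ | (n % 2 = 0 ∧ n / 2 ∈ X) ∨ (n % 2 = 1 ∧ n / 2 ∈ Y)}

/-- the graph of a function -/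
def graph (f : ℕ → ℕ) : Set ℕ := {y | f (Nat.unpair y).1 = (Nat.unpair y).2}

/-- the cospectrum of the enumeration degree of `A` -/
def cospectrum (A : Set ℕ) : Set (Set ℕ) := {Z | ERed (join Z (compl Z)) A}

/-- the enumeration degree of `A` is total -/
def IsTotal (A : Set ℕ) : Prop := ∃ Y : Set ℕ, ERed A (join Y (compl Y)) ∧ ERed (join Y (compl Y)) A

/-- nonempty, closed downward under Turing reducibility and closed under join -/
def IsTuringIdeal (I : Set (Set ℕ)) : Prop :=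
  I.Nonempty ∧
    (∀ X Y : Set ℕ, X ∈ I →
      TuringReducible (fun n => Part.some (Y.indicator (fun _ => (1 : ℕ)) n))
        (fun n => Part.some (X.indicator (fun _ => (1 : ℕ)) n)) → Y ∈ I) ∧
    ∀ X Y : Set ℕ, X ∈ I → Y ∈ I → join X Y ∈ I

theorem result (I : Set (Set ℕ)) (hc : I.Countable) (hI : IsTuringIdeal I) (h : ℕ → ℕ)
    (hm : Monotone h) :
    (∃ f : ℕ → ℕ, (∀ n, f n ≤ h n) ∧ cospectrum (compl (graph f)) = I ∧
        ¬ IsTotal (compl (graph f))) ↔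
      ¬ ∃ b : ℕ → ℕ, graph b ∈ I ∧ ∀ n, h n ≤ b n := by
  have hI' : MP_40fdec_lc.Idl I :=
    ⟨hI.1, fun X Y hX a => hI.2.1 X Y hX a.turingReducible, hI.2.2⟩
  constructor
  · rintro ⟨f, h1, rfl, h3⟩ ⟨b, h4, h5⟩
    refine h3 ⟨graph f, ?_, MP_40fdec_lc.total_of_bound (fun n => (h1 n).trans (h5 n)) h4⟩
    exact MP_40fdec_lc.ered_of_map (fun x => 2 * x + 1)
      (((MP_40fdec_lc.RecIn.const 2).mul MP_40fdec_lc.RecIn.id').add (MP_40fdec_lc.RecIn.const 1))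
      fun x => MP_40fdec_lc.odd_mem_join.symm
  · intro hh
    obtain ⟨f, h1, h2, h3⟩ := MP_40fdec_lc.exists_below hc hI' hm hh
    exact ⟨f, h1, Set.ext h2, fun ⟨Y, a, b⟩ => h3 Y ((h2 Y).1 b) a⟩

end Pool.Agent.Results.MP_40fdec_lc.GrowthThreshold
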