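import Pool.Agent.Mg.F40fdec.G0139b3

set_option autoImplicit false

namespace Pool.Agent.Results.MP_40fdec_lc.TelographCospectra

/-- `A` is enumeration reducible to `B` -/
def ERed (A B : Set ℕ) : Prop :=
  ∃ g : ℕ →. ℕ, Partrec g ∧
    ∀ x, x ∈ A ↔ ∃ u : ℕ, (g (Nat.pair x u)).Dom ∧ ∀ y, u.testBit y = true → y ∈ B

/-- the join of two sets -/
def join (X Y : Set ℕ) : Set ℕ := {n : ℕ | (n % 2 = 0 ∧ n / 2 ∈ X) ∨ (n % 2 = 1 ∧ n / 2 ∈ Y)}

/-- the graph of a function -/
def graph (f : ℕ → ℕ) : Set ℕ := {y | f (Nat.unpair y).1 = (Nat.unpair y).2}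

/-- the telograph: the part of the graph with values at least `b` -/
def telograph (b : ℕ) (f : ℕ → ℕ) : Set ℕ :=
  {y | f (Nat.unpair y).1 = (Nat.unpair y).2 ∧ b ≤ (Nat.unpair y).2}

/-- the cospectrum of the enumeration degree of `A` -/
def cospectrum (A : Set ℕ) : Set (Set ℕ) := {Z | ERed (join Z (compl Z)) A}

/-- nonempty, closed downward under Turing reducibility and closed under join -/
def IsTuringIdeal (I : Set (Set ℕ)) : Prop :=
  I.Nonempty ∧
    (∀ X Y : Set ℕ, X ∈ I →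
      TuringReducible (fun n => Part.some (Y.indicator (fun _ => (1 : ℕ)) n))
        (fun n => Part.some (X.indicator (fun _ => (1 : ℕ)) n)) → Y ∈ I) ∧
    ∀ X Y : Set ℕ, X ∈ I → Y ∈ I → join X Y ∈ I

/-- every set that is computably enumerable in a member of `I` belongs to `I` -/
def JumpClosed (I : Set (Set ℕ)) : Prop :=
  ∀ X ∈ I, ∀ P : Set ℕ, ERed P (join X (compl X)) → P ∈ I

theorem result (I : Set (Set ℕ)) (hc : I.Countable) (hI : IsTuringIdeal I) :
    (∃ (b : ℕ) (f : ℕ → ℕ), cospectrum (join (compl (graph f)) (telograph b f)) = I) ↔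
      ¬ JumpClosed I := by
  have hI' : MP_40fdec_lc.Idl I :=
    ⟨hI.1, fun X Y hX a => hI.2.1 X Y hX a.turingReducible, hI.2.2⟩
  constructor
  · rintro ⟨b, f, rfl⟩ h
    obtain ⟨X, P, h1, h2, h3⟩ := MP_40fdec_lc.not_closed b f
    exact h3 (h X h1 P h2)
  · intro h
    simp only [JumpClosed, not_forall] at h
    obtain ⟨X, hX, P, h1, h2⟩ := h
    obtain ⟨g, hg⟩ := MP_40fdec_lc.exists_telo hc hI' hX h1 h2
    exact ⟨2, g, Set.ext hg⟩

end Pool.Agent.Results.MP_40fdec_lc.TelographCospectra
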